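import Pool.Agent.Y283.NK.Stm

/-!
# Project NK: weak limits of vectors along an ultrafilter
-/

set_option autoImplicit false

namespace Pool.Agent.Y454.NK

open MeasureTheory Set Metric Filter Topology
open scoped InnerProductSpace ENNReal NNReal

variable {H : Type} [NormedAddCommGroup H] [InnerProductSpace ℂ H] [CompleteSpace H]

/-- weak limits along ultrafilters -/
theorem wlim (U : Ultrafilter ℕ) (v : ℕ → H) (D : ℝ) (hD : ∀ᶠ n in (U : Filter ℕ), ‖v n‖ ≤ D) :
    ∃ w : H, ‖w‖ ≤ D ∧ ∀ y, Tendsto (fun n => ⟪v n, y⟫_ℂ) U (𝓝 ⟪w, y⟫_ℂ) := by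
  have hlim : ∀ y : H, ∃ l : ℂ, Tendsto (fun n => ⟪v n, y⟫_ℂ) U (𝓝 l) ∧ ‖l‖ ≤ D * ‖y‖ := by
    intro y
    have h1 : ∀ᶠ n in (U : Filter ℕ), ⟪v n, y⟫_ℂ ∈ closedBall (0 : ℂ) (D * ‖y‖) := by
      filter_upwards [hD] with n hn
      rw [mem_closedBall, dist_zero_right]
      exact (norm_inner_le_norm _ _).trans (mul_le_mul_of_nonneg_right hn (norm_nonneg _))
    obtain ⟨l, hl, hl'⟩ := (isCompact_closedBall (0 : ℂ) (D * ‖y‖)).ultrafilter_le_nhds
      (U.map fun n => ⟪v n, y⟫_ℂ) (by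
        rw [le_principal_iff]
        exact h1)
    refine ⟨l, hl', ?_⟩
    rwa [mem_closedBall, dist_zero_right] at hl
  choose l hl hlb using hlim
  let L : H →ₗ[ℂ] ℂ :=
    { toFun := l
      map_add' := by
        intro y z
        refine tendsto_nhds_unique (hl (y + z)) ?_
        have h1 := (hl y).add (hl z)
        refine h1.congr fun n => ?_
        rw [inner_add_right]
      map_smul' := by
        intro c y
        refine tendsto_nhds_unique (hl (c • y)) ?_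
        have h1 := (hl y).const_mul c
        refine h1.congr fun n => ?_
        rw [inner_smul_right] }
  let L' : StrongDual ℂ H := L.mkContinuous D hlb
  refine ⟨(InnerProductSpace.toDual ℂ H).symm L', ?_, fun y => ?_⟩
  · rw [LinearIsometryEquiv.norm_map]
    have hD0 : 0 ≤ D := by
      obtain ⟨n, hn⟩ := hD.exists
      exact (norm_nonneg _).trans hn
    exact L.mkContinuous_norm_le hD0 hlb
  · rw [InnerProductSpace.toDual_symm_apply]
    exact hl y

/-- operators converging in norm -/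
theorem wop (U : Ultrafilter ℕ) {v : ℕ → H} {D : ℝ} (hD : ∀ᶠ n in (U : Filter ℕ), ‖v n‖ ≤ D)
    {w : H} (hw : ∀ y, Tendsto (fun n => ⟪v n, y⟫_ℂ) U (𝓝 ⟪w, y⟫_ℂ)) {T : H →L[ℂ] H}
    {S : ℕ → (H →L[ℂ] H)} (hS : Tendsto S U (𝓝 T)) (y : H) :
    Tendsto (fun n => ⟪S n (v n), y⟫_ℂ) U (𝓝 ⟪T w, y⟫_ℂ) := by
  have h1 : Tendsto (fun n => ⟪T (v n), y⟫_ℂ) U (𝓝 ⟪T w, y⟫_ℂ) := by
    have h2 := hw ((ContinuousLinearMap.adjoint T) y)
    simp only [ContinuousLinearMap.adjoint_inner_right] at h2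
    exact h2
  have h3 : Tendsto (fun n => ⟪(S n - T) (v n), y⟫_ℂ) U (𝓝 0) := by
    rw [tendsto_zero_iff_norm_tendsto_zero]
    have h4 : Tendsto (fun n => ‖S n - T‖ * D * ‖y‖) U (𝓝 (0 * D * ‖y‖)) := by
      refine (Tendsto.mul_const _ (Tendsto.mul_const _ ?_))
      rw [← tendsto_zero_iff_norm_tendsto_zero]
      exact tendsto_sub_nhds_zero_iff.2 hS
    rw [zero_mul, zero_mul] at h4
    refine squeeze_zero' (Eventually.of_forall fun n => norm_nonneg _) ?_ h4
    filter_upwards [hD] with n hn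
    calc ‖⟪(S n - T) (v n), y⟫_ℂ‖ ≤ ‖(S n - T) (v n)‖ * ‖y‖ := norm_inner_le_norm _ _
      _ ≤ ‖S n - T‖ * D * ‖y‖ := by
        gcongr
        exact ((S n - T).le_opNorm _).trans (mul_le_mul_of_nonneg_left hn (norm_nonneg _))
  have h5 := h1.add h3
  rw [add_zero] at h5
  refine h5.congr fun n => ?_
  rw [← inner_add_left]
  congr 1
  rw [ContinuousLinearMap.sub_apply]
  abel

theorem main : Pool.Agent.Y283.NK.S_LIM := by
  intro H _ _ _ T S c r C δ x X Z κ I hI _ hδ hS h1 h2 h3 h4 h5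
  have hne : NeBot (atTop ⊓ 𝓟 I) := by
    rw [← frequently_mem_iff_neBot]
    exact Nat.frequently_atTop_iff_infinite.2 hI
  set U : Ultrafilter ℕ := Ultrafilter.of (atTop ⊓ 𝓟 I) with hU
  have hle : (U : Filter ℕ) ≤ atTop ⊓ 𝓟 I := Ultrafilter.of_le _
  have hUI : ∀ᶠ n in (U : Filter ℕ), n ∈ I := (hle.trans inf_le_right) (mem_principal_self I)
  have hUS : Tendsto S U (𝓝 T) := hS.mono_left (hle.trans inf_le_left)
  have hX : ∀ a, ∃ w : H, ‖w‖ ≤ C * r ^ a ∧
      ∀ y, Tendsto (fun n => ⟪X n a, y⟫_ℂ) U (𝓝 ⟪w, y⟫_ℂ) := fun a =>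
    wlim U (fun n => X n a) _ (hUI.mono fun n hn => h2 n hn a)
  choose Y hYb hY using hX
  obtain ⟨W, -, hW⟩ := wlim U Z C (hUI.mono fun n hn => h4 n hn)
  obtain ⟨k, hk, hkU⟩ := (isCompact_closedBall (0 : ℂ) C).ultrafilter_le_nhds (U.map κ) (by
    rw [le_principal_iff]
    refine hUI.mono fun n hn => ?_
    rw [mem_closedBall, dist_zero_right]
    exact (h5 n hn).2)
  have hκ : Tendsto κ U (𝓝 k) := hkU
  have hk0 : δ ≤ ‖k‖ := by
    refine ge_of_tendsto hκ.norm (hUI.mono fun n hn => (h5 n hn).1)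
  refine ⟨Y, W, k, fun a => ?_, hYb, ?_, ?_⟩
  · refine ext_inner_right ℂ fun y => ?_
    have e1 := wop U (hUI.mono fun n hn => h2 n hn a) (hY a) hUS y
    have e2 : Tendsto (fun n => ⟪c • X n a, y⟫_ℂ) U (𝓝 ⟪c • Y a, y⟫_ℂ) := by
      simp only [inner_smul_left]
      exact (hY a y).const_mul _
    have e3 := e1.sub e2
    simp only [← inner_sub_left] at e3
    refine tendsto_nhds_unique e3 ?_
    refine (hY (a + 1) y).congr' ?_
    refine hUI.mono fun n hn => ?_
    simp only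
    rw [h1 n hn a]
  · refine ext_inner_right ℂ fun y => ?_
    have e1 := wop U (hUI.mono fun n hn => h4 n hn) hW hUS y
    have e2 : Tendsto (fun n => ⟪c • Z n, y⟫_ℂ) U (𝓝 ⟪c • W, y⟫_ℂ) := by
      simp only [inner_smul_left]
      exact (hW y).const_mul _
    have e3 := e2.sub e1
    simp only [← inner_sub_left] at e3
    refine tendsto_nhds_unique e3 ?_
    have e4 : Tendsto (fun n => ⟪κ n • x, y⟫_ℂ) U (𝓝 ⟪k • x, y⟫_ℂ) := by
      simp only [inner_smul_left]
      exact ((Complex.continuous_conj.tendsto k).comp hκ).mul_const _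
    have e5 := (hY 0 y).add e4
    simp only [← inner_add_left] at e5
    refine e5.congr' ?_
    refine hUI.mono fun n hn => ?_
    simp only
    rw [h3 n hn]
  · rintro rfl
    rw [norm_zero] at hk0
    linarith

end Pool.Agent.Y454.NK
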